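import Pool.Agent.Helper26.KD.St

/-! # Project CB (MP_65faa7, bulk case), block K: module Kw -/

set_option autoImplicit false

open scoped BigOperators ENNReal Topology
open Pool.LE Pool.NL Filter

namespace Pool.KD

namespace KwM

theorem pH01 (d : ℕ) : 0 ≤ pH d ∧ pH d ≤ 1 / 2 := by
  unfold pH
  constructor
  · exact Real.sSup_nonneg fun p hp => hp.1
  · exact Real.sSup_le (fun p hp => hp.2.1) (by norm_num)

theorem neg_eq {d : ℕ} (x : Zd d) : sgp 1 (fun _ => -1) x = -x := by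
  funext i
  simp [sgp]

theorem tau_comm (hTB : StTauBasic) (d : ℕ) {p : ℝ} (h0 : 0 ≤ p) (h1 : p ≤ 1) (x y : Zd d) :
    tau d p (x - y) = tau d p (y - x) := by
  have h := (hTB d p h0 h1).2.2.1 1 (fun _ => -1) (y - x)
  rw [neg_eq, neg_sub] at h
  exact h

theorem tau_nn (d : ℕ) (p : ℝ) (x : Zd d) : 0 ≤ tau d p x := ENNReal.toReal_nonneg

theorem nn_nn {d : ℕ} (x : Zd d) : 0 ≤ nn x := Real.sqrt_nonneg _

theorem summ {d : ℕ} {G : Zd d → ℝ} (hG : ∀ x, 0 ≤ G x)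
    (hs : Summable (fun y => (1 + nn y) ^ 3 * G y)) {w : Zd d → ℝ} (h0 : ∀ x, 0 ≤ w x)
    (h1 : ∀ x, w x ≤ 1) (x : Zd d) : Summable (fun y => G (x - y) * w y) := by
  have hGs : Summable G := by
    refine Summable.of_nonneg_of_le hG (fun y => ?_) hs
    have : 1 ≤ (1 + nn y) ^ 3 := one_le_pow₀ (by linarith [nn_nn y])
    nlinarith [hG y]
  have h2 : Summable (fun y => G (x - y)) := (Equiv.subLeft x).summable_iff.mpr hGs
  refine Summable.of_nonneg_of_le (fun y => mul_nonneg (hG _) (h0 _)) (fun y => ?_) h2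
  nlinarith [hG (x - y), h1 y, h0 y]

theorem nrm_le {d : ℕ} (x : Zd d) : (CL.nrm x : ℝ) ≤ nn x := by
  have h : CL.nrm x ≤ ⌊nn x⌋₊ := by
    unfold CL.nrm
    refine Finset.sup_le fun i _ => ?_
    refine Nat.le_floor ?_
    unfold nn
    refine Real.le_sqrt_of_sq_le ?_
    have e : ((x i).natAbs : ℝ) ^ 2 = (x i : ℝ) ^ 2 := by
      rw [← sq_abs ((x i : ℝ))]
      congr 1
      rw [Nat.cast_natAbs, Int.cast_abs]
    rw [e]
    unfold LE.sq
    exact Finset.single_le_sum (f := fun i => (x i : ℝ) ^ 2) (fun j _ => sq_nonneg _)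
      (Finset.mem_univ i)
  exact (Nat.cast_le.mpr h).trans (Nat.floor_le (nn_nn x))

theorem rp {a b R s : ℝ} (ha : 0 < a) (hb : 0 < b) (hR : 0 < R) (hs : 0 ≤ s) (h : a ≤ R * b) :
    b ^ (-s) ≤ R ^ s * a ^ (-s) := by
  have h1 : a ^ s ≤ R ^ s * b ^ s := by
    rw [← Real.mul_rpow hR.le hb.le]
    exact Real.rpow_le_rpow ha.le h hs
  have hbs : 0 < b ^ s := Real.rpow_pos_of_pos hb s
  have has : 0 < a ^ s := Real.rpow_pos_of_pos ha s
  rw [Real.rpow_neg hb.le, Real.rpow_neg ha.le, inv_eq_one_div, ← div_eq_mul_inv,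
    div_le_div_iff₀ hbs has]
  linarith

theorem bx_qq {d m : ℕ} (hm : 1 ≤ m) {y : Zd d} (hy : y ∈ bx d m) : qq (m : ℝ) y ≤ 1 + d := by
  have hm0 : (0 : ℝ) < m := by exact_mod_cast hm
  unfold bx at hy
  rw [Fintype.mem_piFinset] at hy
  unfold qq
  have h1 : LE.sq y ≤ d * (m : ℝ) ^ 2 := by
    unfold LE.sq
    calc ∑ i, (y i : ℝ) ^ 2 ≤ ∑ _i : Fin d, (m : ℝ) ^ 2 := by
          refine Finset.sum_le_sum fun i _ => ?_
          have h := Finset.mem_Icc.mp (hy i)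
          have h3 : (-(m : ℝ)) ≤ (y i : ℝ) := by exact_mod_cast h.1
          have h4 : (y i : ℝ) ≤ (m : ℝ) := by exact_mod_cast h.2
          nlinarith
      _ = d * (m : ℝ) ^ 2 := by simp
  have : LE.sq y / (m : ℝ) ^ 2 ≤ d := by
    rw [div_le_iff₀ (by positivity)]
    exact h1
  linarith

end KwM

open KwM

theorem hKw (hKSp : StKSp) (hKt : StKt) (hLp : StLp) (hW : StW) (hTB : StTauBasic) : StKw := by
  obtain ⟨d₁, h1⟩ := hKSp
  refine ⟨max d₁ 21, fun d hd t ht2 ht5 => ?_⟩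
  obtain ⟨K, A, hK, hA, hKS⟩ := h1 d (le_trans (le_max_left _ _) hd)
  have hd21 : 21 ≤ d := le_trans (le_max_right _ _) hd
  obtain ⟨C, hC, hmain⟩ := hKt d t K A hd21 ht2 ht5 hK hA
  refine ⟨C, hC, fun m L x hm => ?_⟩
  obtain ⟨hp0, hp1⟩ := pH01 d
  have hww := (hW d m hm).2.2.1 t
  have hsym : ∀ y ∈ L, tau d (pH d) (y - x) * ww t m y = tau d (pH d) (x - y) * ww t m y := by
    intro y _
    rw [tau_comm hTB d hp0 (by linarith) y x]
  rw [Finset.sum_congr rfl hsym]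
  refine hLp d L (ww t m) x _ (by omega) (fun y => (hww y (by linarith)).1.le)
    (fun p hpl hpu => ?_)
  have ks := hKS p hpl hpu
  have hs : Summable (fun y => tau d p (x - y) * ww t m y) :=
    summ ks.G0 ks.Gs (fun y => (hww y (by linarith)).1.le) (fun y => (hww y (by linarith)).2.1) x
  exact (hs.sum_le_tsum L (fun y _ => mul_nonneg (ks.G0 _) (hww y (by linarith)).1.le)).trans
    (hmain _ _ _ ks m x hm)

theorem hK1 (hKw : StKw) (hW : StW) : CB.StK1 := by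
  obtain ⟨d₁, h1⟩ := hKw
  refine ⟨d₁, fun d hd => ?_⟩
  obtain ⟨C, hC, hmain⟩ := h1 d hd 5 (by norm_num) le_rfl
  set D : ℝ := (1 + d : ℝ) ^ ((5 : ℝ) / 2) with hD
  have hd1 : (1 : ℝ) ≤ 1 + d := by linarith [Nat.cast_nonneg (α := ℝ) d]
  have hD1 : 1 ≤ D := Real.one_le_rpow hd1 (by norm_num)
  refine ⟨D * C * 8, by nlinarith, fun m w hm => ?_⟩
  have hm1 : (1 : ℝ) ≤ m := by exact_mod_cast hm
  have hm0 : (0 : ℝ) < m := by linarith
  have hW' := hW d m hm1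
  have hq1 : ∀ y : Zd d, 1 ≤ qq (m : ℝ) y := fun y => (hW'.1 y).1
  have key : ∀ y ∈ bx d m, tau d (pH d) (y - w) ≤
      D * (tau d (pH d) (y - w) * ww 5 (m : ℝ) y) := by
    intro y hy
    have h2 := bx_qq hm hy
    have h3 : 1 ≤ D * ww 5 (m : ℝ) y := by
      unfold ww
      have := rp (a := qq (m : ℝ) y) (b := 1) (R := 1 + d) (s := 5 / 2)
        (by linarith [hq1 y]) one_pos (by linarith) (by norm_num) (by linarith)
      rw [Real.one_rpow] at this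
      exact this
    have h4 := tau_nn d (pH d) (y - w)
    nlinarith
  have e3 : (5 : ℝ) - 2 = 3 := by norm_num
  have h5 := hmain m (bx d m) w hm1
  rw [e3] at h5
  have hw3 : ww 3 (m : ℝ) w ≤ 8 * (m : ℝ) ^ 3 / ((m : ℝ) + CL.nrm w) ^ 3 := by
    have h6 := (hW'.2.2.2.2.2.2.2 3 w (by norm_num)).2
    have h7 : (2 : ℝ) ^ (3 : ℝ) = 8 := by
      rw [show (3 : ℝ) = ((3 : ℕ) : ℝ) by norm_num, Real.rpow_natCast]; norm_num
    have h8 : (1 + nn w / m) ^ (-(3 : ℝ)) = (m : ℝ) ^ 3 / ((m : ℝ) + nn w) ^ 3 := by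
      have h9 : 0 < 1 + nn w / m := by
        have := div_nonneg (nn_nn w) hm0.le
        linarith
      rw [Real.rpow_neg h9.le, show (3 : ℝ) = ((3 : ℕ) : ℝ) by norm_num, Real.rpow_natCast]
      have h10 : 1 + nn w / m = ((m : ℝ) + nn w) / m := by field_simp
      rw [h10, div_pow, inv_div]
    rw [h7, h8] at h6
    refine h6.trans ?_
    rw [mul_div_assoc]
    refine mul_le_mul_of_nonneg_left ?_ (by norm_num)
    refine div_le_div_of_nonneg_left (by positivity) (by positivity) ?_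
    refine pow_le_pow_left₀ (by positivity) ?_ 3
    linarith [nrm_le w]
  calc ∑ y ∈ bx d m, tau d (pH d) (y - w)
      ≤ ∑ y ∈ bx d m, D * (tau d (pH d) (y - w) * ww 5 (m : ℝ) y) := Finset.sum_le_sum key
    _ = D * ∑ y ∈ bx d m, tau d (pH d) (y - w) * ww 5 (m : ℝ) y := by rw [Finset.mul_sum]
    _ ≤ D * (C * (m : ℝ) ^ 2 * ww 3 (m : ℝ) w) := mul_le_mul_of_nonneg_left h5 (by linarith)
    _ ≤ D * (C * (m : ℝ) ^ 2 * (8 * (m : ℝ) ^ 3 / ((m : ℝ) + CL.nrm w) ^ 3)) := by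
        refine mul_le_mul_of_nonneg_left ?_ (by linarith)
        exact mul_le_mul_of_nonneg_left hw3 (by positivity)
    _ = D * C * 8 * (m : ℝ) ^ 5 / ((m : ℝ) + CL.nrm w) ^ 3 := by ring

theorem hK2 (hKw : StKw) (hRr : StRr) (hW : StW) : CB.StK2 := by
  obtain ⟨d₁, h1⟩ := hKw
  refine ⟨max d₁ 1, fun d hd t ht2 ht5 => ?_⟩
  obtain ⟨C, hC, hmain⟩ := h1 d (le_trans (le_max_left _ _) hd) t ht2 ht5.le
  obtain ⟨R, hR, hrr⟩ := hRr d (le_trans (le_max_right _ _) hd)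
  have hR0 : 0 < R := by linarith
  have ha : 1 ≤ R ^ (t / 2) := Real.one_le_rpow hR (by linarith)
  have hb : 1 ≤ R ^ ((t - 2) / 2) := Real.one_le_rpow hR (by linarith)
  have ha0 : 0 ≤ R ^ (t / 2) := by linarith
  refine ⟨R ^ (t / 2) * (C * R ^ ((t - 2) / 2)), ?_, fun n L x hn => ?_⟩
  · have : 1 ≤ C * R ^ ((t - 2) / 2) := by nlinarith
    nlinarith
  have hn1 : (1 : ℝ) ≤ n := by exact_mod_cast hn
  have hn0 : (0 : ℝ) < n := by linarith
  have hW' := hW d n hn1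
  have hq1 : ∀ y : Zd d, 1 ≤ qq (n : ℝ) y := fun y => (hW'.1 y).1
  set c : Zd d := fun _ => ((n / 2 : ℕ) : ℤ) with hc
  have rsq : ∀ (y : Zd d) (s : ℝ), (CB.rr n y ^ 2) ^ (-(s / 2)) = CB.rr n y ^ (-s) := by
    intro y s
    have h0 : 0 ≤ CB.rr n y := by linarith [(hrr n y hn).1]
    rw [← Real.rpow_natCast, ← Real.rpow_mul h0]
    congr 1
    push_cast
    ring
  have key : ∀ y ∈ L, tau d (pH d) (y - x) * CB.rr n y ^ (-t) ≤
      R ^ (t / 2) * (tau d (pH d) ((y - c) - (x - c)) * ww t (n : ℝ) (y - c)) := by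
    intro y _
    obtain ⟨hr1, hr2, hr3⟩ := hrr n y hn
    have h2 := rp (a := qq (n : ℝ) (y - c)) (b := CB.rr n y ^ 2) (R := R) (s := t / 2)
      (by linarith [hq1 (y - c)]) (by nlinarith) hR0 (by linarith) hr3
    rw [rsq y t] at h2
    rw [sub_sub_sub_cancel_right]
    have h4 := tau_nn d (pH d) (y - x)
    calc tau d (pH d) (y - x) * CB.rr n y ^ (-t)
        ≤ tau d (pH d) (y - x) * (R ^ (t / 2) * qq (n : ℝ) (y - c) ^ (-(t / 2))) :=
          mul_le_mul_of_nonneg_left h2 h4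
      _ = R ^ (t / 2) * (tau d (pH d) (y - x) * ww t (n : ℝ) (y - c)) := by
          unfold ww
          ring
  have hinj : Function.Injective (fun y : Zd d => y - c) := sub_left_injective
  have hsum : ∑ y ∈ L, tau d (pH d) ((y - c) - (x - c)) * ww t (n : ℝ) (y - c) ≤
      C * (n : ℝ) ^ 2 * ww (t - 2) (n : ℝ) (x - c) := by
    have h := hmain n (L.map ⟨_, hinj⟩) (x - c) hn1
    rw [Finset.sum_map] at h
    exact h
  have hx : ww (t - 2) (n : ℝ) (x - c) ≤ R ^ ((t - 2) / 2) * CB.rr n x ^ (-(t - 2)) := by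
    obtain ⟨hr1, hr2, hr3⟩ := hrr n x hn
    have h2 := rp (a := CB.rr n x ^ 2) (b := qq (n : ℝ) (x - c)) (R := R) (s := (t - 2) / 2)
      (by nlinarith) (by linarith [hq1 (x - c)]) hR0 (by linarith) hr2
    rw [rsq x (t - 2)] at h2
    exact h2
  rw [div_le_iff₀ (by positivity)]
  calc ∑ y ∈ L, tau d (pH d) (y - x) * CB.rr n y ^ (-t)
      ≤ ∑ y ∈ L, R ^ (t / 2) * (tau d (pH d) ((y - c) - (x - c)) * ww t (n : ℝ) (y - c)) :=
        Finset.sum_le_sum key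
    _ = R ^ (t / 2) * ∑ y ∈ L, tau d (pH d) ((y - c) - (x - c)) * ww t (n : ℝ) (y - c) := by
        rw [Finset.mul_sum]
    _ ≤ R ^ (t / 2) * (C * (n : ℝ) ^ 2 * ww (t - 2) (n : ℝ) (x - c)) :=
        mul_le_mul_of_nonneg_left hsum ha0
    _ ≤ R ^ (t / 2) * (C * (n : ℝ) ^ 2 * (R ^ ((t - 2) / 2) * CB.rr n x ^ (-(t - 2)))) := by
        refine mul_le_mul_of_nonneg_left ?_ ha0
        exact mul_le_mul_of_nonneg_left hx (by positivity)
    _ = R ^ (t / 2) * (C * R ^ ((t - 2) / 2)) * CB.rr n x ^ (-(t - 2)) * (n : ℝ) ^ 2 := by ring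

end Pool.KD
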